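import Pool.Agent.T2h54.Alt.Ops

/-!
# A family of alternating knots

`starKnot n` is the boundary of the plumbing of `2 n + 2` annuli with two crossings each, along the
tree which consists of one vertex with one arm of length one and `n` arms of length two.
-/

set_option autoImplicit false

namespace T2h54.Alt

open Pool.Agent.Helper454.Wh
open Pool.Agent.Helper454.Wh.OPiece
open Pool.Agent.Helper454.Kauf (Piece Word IsKnot Closed componentsAux components)
open Q174.TBD
open LaurentPolynomial (T)
open Polynomial (toLaurent)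

noncomputable section

/-- `n` arms of length two -/
def arms (n : ℕ) : OWord := (List.replicate n arm2).flatten

/-- The diagram: a band closed up, with `n` arms of length two, one arm of length one and a full
twist. -/
def starKnot (n : ℕ) : OWord :=
  [birth 0 true, birth 1 false] ++ (arms n ++ (arm1 ++ ([pos 0, pos 0] ++ [death 1, death 0])))

theorem arms_succ (n : ℕ) : arms (n + 1) = arms n ++ arm2 := by
  unfold arms
  rw [List.replicate_succ', List.flatten_append]
  simp

theorem arms_succ' (n : ℕ) : arms (n + 1) = arm2 ++ arms n := by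
  unfold arms
  rw [List.replicate_succ, List.flatten_cons]

/-- the directions -/
def dd : ℕ → Bool := insD 1 false (insD 0 true noD)

/-! ### the value of the Conway polynomial -/

/-- the Conway polynomial of `starKnot n` -/
def cpoly (n : ℕ) : Polynomial ℤ :=
  (1 - Polynomial.X ^ 2) ^ (n + 1) -
    (n : Polynomial ℤ) * Polynomial.X ^ 2 * (1 - Polynomial.X ^ 2) ^ (n - 1)

section
variable {Λ : OWord → LaurentPolynomial ℤ} (hΛ : IsConway Λ)
include hΛ

/-- the functional after the two maxima -/
abbrev f0 (Λ : OWord → LaurentPolynomial ℤ) : OWord → LaurentPolynomial ℤ :=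
  ap (extd Λ) [birth 0 true, birth 1 false]

omit hΛ in
theorem f0_mem : f0 Λ ∈ S (LaurentPolynomial ℤ) Λ 4 dd :=
  Submodule.subset_span ⟨[birth 0 true, birth 1 false],
    by simp [Pool.Agent.Helper454.Wh.below, OPiece.below, dd], rfl⟩

omit hΛ in
theorem cancel_T {f : OWord → LaurentPolynomial ℤ}
    (h : (T 1 : LaurentPolynomial ℤ) • f = 0) : f = 0 := by
  have h3 : (T (-1) : LaurentPolynomial ℤ) • (T 1 : LaurentPolynomial ℤ) • f = 0 := by
    rw [h, smul_zero]
  rw [smul_smul, ← LaurentPolynomial.T_add] at h3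
  simpa using h3

theorem EE : E (E (f0 Λ)) = 0 := by
  have h2 : st (f0 Λ) (death 0) ∈ S (LaurentPolynomial ℤ) Λ 2 (delD 0 dd) :=
    death_mem f0_mem (by omega) (by simp [dd, insD])
  have := bigon hΛ.1 h2 (i := 0) true (by omega)
  rw [sub_self, zero_smul] at this
  have h3 : st (st (st (f0 Λ) (death 0)) (birth 0 true)) (death 0) = 0 := cancel_T this
  show st (st (st (st (f0 Λ) (death 0)) (birth 0 true)) (death 0)) (birth 0 true) = 0
  rw [h3]
  rfl

theorem arms_val (n : ℕ) : ap (f0 Λ) (arms n) =
    (1 - (T 1 : LaurentPolynomial ℤ) ^ 2) ^ n • f0 Λ -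
      ((n : LaurentPolynomial ℤ) * T 1 * (1 - (T 1 : LaurentPolynomial ℤ) ^ 2) ^ (n - 1)) •
        E (f0 Λ) ∧ ap (f0 Λ) (arms n) ∈ S (LaurentPolynomial ℤ) Λ 4 dd := by
  induction n with
  | zero =>
    have e : ap (f0 Λ) (arms 0) = f0 Λ := rfl
    rw [e]
    refine ⟨?_, f0_mem⟩
    simp
  | succ n ih =>
    rw [arms_succ, ap_append]
    refine ⟨?_, arm2_mem hΛ.1 ih.2 (by omega) (by simp [dd, insD]) (by simp [dd, insD])⟩
    rw [arm2_eq hΛ.1 ih.2 (by omega) (by simp [dd, insD]) (by simp [dd, insD]), ih.1, E_sub,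
      E_smul, E_smul, EE hΛ, smul_zero, sub_zero, smul_sub, smul_smul, smul_smul, smul_smul]
    rw [sub_sub, ← add_smul]
    congr 2
    · rw [pow_succ]
      ring
    · rcases n with _ | n
      · simp
      · push_cast
        rw [pow_succ]
        ring

theorem final_f0 : st (st (f0 Λ) (death 1)) (death 0) [] = 0 := by
  have h0 : extd Λ ∈ S (LaurentPolynomial ℤ) Λ 0 noD := Submodule.subset_span ⟨[], rfl, rfl⟩
  have h1 : st (extd Λ) (birth 0 true) ∈ S (LaurentPolynomial ℤ) Λ 2 (insD 0 true noD) :=
    birth_mem h0 true le_rfl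
  have := bigon hΛ.1 h1 (i := 1) false (by omega)
  rw [sub_self, zero_smul] at this
  have h3 : st (st (st (extd Λ) (birth 0 true)) (birth 1 false)) (death 1) = 0 := cancel_T this
  show st (st (st (st (extd Λ) (birth 0 true)) (birth 1 false)) (death 1)) (death 0) [] = 0
  rw [h3]
  rfl

theorem final_E : st (st (E (f0 Λ)) (death 1)) (death 0) [] = 1 := by
  have h0 : extd Λ ∈ S (LaurentPolynomial ℤ) Λ 0 noD := Submodule.subset_span ⟨[], rfl, rfl⟩
  have h1 : st (extd Λ) (birth 0 true) ∈ S (LaurentPolynomial ℤ) Λ 2 (insD 0 true noD) :=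
    birth_mem h0 true le_rfl
  have z := zig2 hΛ.1 h1 (i := 0) (by omega) (b := false) (by simp [insD])
  have e1 : st (f0 Λ) (death 0) = st (extd Λ) (birth 0 true) := z
  have z2 := zig1 hΛ.1 h1 (i := 0) (by omega) (b := true) (by simp [insD])
  show st (st (st (st (f0 Λ) (death 0)) (birth 0 true)) (death 1)) (death 0) [] = 1
  rw [e1, z2]
  show extd Λ [birth 0 true, death 0] = 1
  rw [extd, if_pos]
  · exact hΛ.2
  · simp [OClosed, Pool.Agent.Helper454.Wh.below, OPiece.below, insD]

omit hΛ in
theorem below_arm2 {n : ℕ} {d : ℕ → Bool} (hn : 2 ≤ n) (h0 : d 0 = true) (h1 : d 1 = false) :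
    Pool.Agent.Helper454.Wh.below arm2 n d = some (n, d) := by
  have e : delD 1 (delD 1 (swpD 4 (swpD 4 (swpD 2 (swpD 0 (insD 3 false (insD 1 true d))))))) = d := by
    rw [swp_swp]
    funext k
    rcases k with _ | _ | k
    · rw [delD_lt _ (by omega), delD_lt _ (by omega)]
      simp [insD, swpD, h0]
    · rw [delD_ge _ (by omega), delD_ge _ (by omega)]
      simp [insD, swpD, h1]
    · rw [delD_ge _ (by omega), delD_ge _ (by omega), swpD_gt _ (by omega), swpD_gt _ (by omega),
        insD_gt _ _ (by omega), insD_gt _ _ (by omega)]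
  have a1 : (1 : ℕ) ≤ n := by omega
  simp only [arm2, Pool.Agent.Helper454.Wh.below, OPiece.below]
  rw [if_pos (by omega), Option.bind_some]
  simp only
  rw [if_pos (by omega), Option.bind_some]
  simp only
  rw [if_pos (by omega), Option.bind_some]
  simp only
  rw [if_pos (by omega), Option.bind_some]
  simp only
  rw [if_pos (by omega), Option.bind_some]
  simp only
  rw [if_pos (by omega), Option.bind_some]
  simp only
  rw [if_pos ⟨by omega, by simp [insD, swpD, h0]⟩, Option.bind_some]
  simp only
  rw [if_pos ⟨by omega, by simp [insD, swpD, delD]⟩, Option.bind_some]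
  simp only
  rw [e, show n + 2 + 2 - 2 - 2 = n by omega]

omit hΛ in
theorem below_arms {n : ℕ} {d : ℕ → Bool} (hn : 2 ≤ n) (h0 : d 0 = true) (h1 : d 1 = false)
    (k : ℕ) : Pool.Agent.Helper454.Wh.below (arms k) n d = some (n, d) := by
  induction k with
  | zero => rfl
  | succ k ih =>
    rw [arms_succ, below_append, ih, Option.bind_some]
    exact below_arm2 hn h0 h1

omit hΛ in
theorem closed (n : ℕ) : OClosed (starKnot n) := by
  have e : Pool.Agent.Helper454.Wh.below [birth 0 true, birth 1 false] 0 noD = some (4, dd) := by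
    simp [Pool.Agent.Helper454.Wh.below, OPiece.below, dd]
  rw [OClosed, starKnot, below_append, e, Option.bind_some, below_append,
    below_arms (by omega) (by simp [dd, insD]) (by simp [dd, insD]), Option.bind_some]
  simp [arm1, Pool.Agent.Helper454.Wh.below, OPiece.below, dd, insD, swpD, delD]

theorem value_eq (n : ℕ) : Λ (starKnot n) = toLaurent (cpoly n) := by
  have h1 : Λ (starKnot n) = extd Λ (starKnot n) := (if_pos (closed n)).symm
  have h2 : extd Λ (starKnot n) =
      st (st (ap (ap (ap (f0 Λ) (arms n)) arm1) [pos 0, pos 0]) (death 1)) (death 0) [] := rfl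
  obtain ⟨v, hm⟩ := arms_val hΛ n
  have hm1 := arm1_mem hΛ.1 hm (by omega) (by simp [dd, insD]) (by simp [dd, insD])
  rw [h1, h2, twist_pos hΛ.1 hm1 (by omega) (by simp [dd, insD]) (by simp [dd, insD]),
    arm1_eq hΛ.1 hm (by omega) (by simp [dd, insD]) (by simp [dd, insD]), v]
  simp only [E_add, E_smul, E_sub, EE hΛ, smul_zero, sub_zero, zero_add]
  simp only [st_sub, st_add, st_smul]
  have p1 := final_f0 hΛ
  have p2 := final_E hΛ
  simp only [Pi.sub_apply, Pi.add_apply, Pi.smul_apply, p1, p2, smul_eq_mul, mul_zero, mul_one]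
  unfold cpoly
  simp only [map_sub, map_mul, map_pow, map_one, map_natCast, Polynomial.toLaurent_X]
  ring

end

end

end T2h54.Alt
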