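import Pool.Agent.T2h54.Alt.Family

/-!
# The diagrams are alternating diagrams of knots
-/

set_option autoImplicit false

namespace T2h54.Alt

open Pool.Agent.Helper454.Wh
open Pool.Agent.Helper454.Kauf (Piece Word IsKnot Closed componentsAux components)

/-- `Alternates l w`: the strands at the top of the diagram `w` (which ends without strands) carry
the labels `l`, and travelling along the strands of `w` one meets overcrossings and undercrossings
in turns; the label `true` says that the first crossing of `w` which the strand meets has to be an
overcrossing, the label `false` that it has to be an undercrossing. The two crossings next to a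
maximum or a minimum of the same arc are of different kinds. In `pos` the strand from top right to
bottom left is the upper one, in `neg` the strand from top left to bottom right. -/
inductive Alternates : List Bool → Word → Prop
  | nil : Alternates [] []
  | birth (l r : List Bool) (b : Bool) (w : Word) :
      Alternates (l ++ [b, !b] ++ r) w → Alternates (l ++ r) (Piece.birth l.length :: w)
  | death (l r : List Bool) (b : Bool) (w : Word) :
      Alternates (l ++ r) w → Alternates (l ++ [b, !b] ++ r) (Piece.death l.length :: w)
  | pos (l r : List Bool) (w : Word) :
      Alternates (l ++ [false, true] ++ r) w →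
      Alternates (l ++ [false, true] ++ r) (Piece.pos l.length :: w)
  | neg (l r : List Bool) (w : Word) :
      Alternates (l ++ [true, false] ++ r) w →
      Alternates (l ++ [true, false] ++ r) (Piece.neg l.length :: w)

/-- Alternating diagrams without endpoints. -/
def IsAlternating (w : Word) : Prop := Alternates [] w

theorem alt_arm2 (w : Word) (h : Alternates [false, true, false, true] w) :
    Alternates [false, true, false, true] (forget arm2 ++ w) := by
  have e : forget arm2 ++ w = Piece.birth 1 :: Piece.birth 3 :: Piece.pos 0 :: Piece.pos 2 ::
    Piece.pos 4 :: Piece.pos 4 :: Piece.death 1 :: Piece.death 1 :: w := rfl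
  rw [e]
  refine Alternates.birth [false] [true, false, true] true _ ?_
  refine Alternates.birth [false, true, false] [true, false, true] true _ ?_
  refine Alternates.pos [] [false, true, false, true, false, true] _ ?_
  refine Alternates.pos [false, true] [false, true, false, true] _ ?_
  refine Alternates.pos [false, true, false, true] [false, true] _ ?_
  refine Alternates.pos [false, true, false, true] [false, true] _ ?_
  refine Alternates.death [false] [true, false, true, false, true] true _ ?_
  exact Alternates.death [false] [true, false, true] true _ h

theorem alt_arms (n : ℕ) (w : Word) (h : Alternates [false, true, false, true] w) :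
    Alternates [false, true, false, true] (forget (arms n) ++ w) := by
  induction n with
  | zero => exact h
  | succ n ih =>
    rw [arms_succ']
    have e : forget (arm2 ++ arms n) ++ w = forget arm2 ++ (forget (arms n) ++ w) := by
      simp [forget]
    rw [e]
    exact alt_arm2 _ ih

theorem alternating (n : ℕ) : IsAlternating (forget (starKnot n)) := by
  have e : forget (starKnot n) = Piece.birth 0 :: Piece.birth 1 :: (forget (arms n) ++
      [Piece.birth 1, Piece.pos 0, Piece.pos 2, Piece.death 1, Piece.pos 0, Piece.pos 0,
        Piece.death 1, Piece.death 0]) := by
    simp [starKnot, forget, arm1, OPiece.forget]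
  unfold IsAlternating
  rw [e]
  refine Alternates.birth [] [] false _ ?_
  refine Alternates.birth [false] [true] true _ ?_
  refine alt_arms n _ ?_
  refine Alternates.birth [false] [true, false, true] true _ ?_
  refine Alternates.pos [] [false, true, false, true] _ ?_
  refine Alternates.pos [false, true] [false, true] _ ?_
  refine Alternates.death [false] [true, false, true] true _ ?_
  refine Alternates.pos [] [false, true] _ ?_
  refine Alternates.pos [] [false, true] _ ?_
  refine Alternates.death [false] [true] true _ ?_
  exact Alternates.death [] [] false _ Alternates.nil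

/-! ### components -/

theorem comp_arm2 (a b k : ℕ) (h1 : a ≠ b) (h2 : a < k) (h3 : b < k) (w : Word) :
    componentsAux (forget arm2 ++ w) [a, b, b, a] k = componentsAux w [k, b, b, k] (k + 2) := by
  have e : forget arm2 ++ w = Piece.birth 1 :: Piece.birth 3 :: Piece.pos 0 :: Piece.pos 2 ::
    Piece.pos 4 :: Piece.pos 4 :: Piece.death 1 :: Piece.death 1 :: w := rfl
  have e1 : a ≠ k + 1 := by omega
  have e2 : b ≠ k + 1 := by omega
  have e3 : k ≠ k + 1 := by omega
  have e4 : k ≠ a := by omega
  have e5 : b ≠ a := by omega
  have e6 : k + 1 ≠ a := by omega
  rw [e]
  simp [componentsAux, e1, e2, e4, e5]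

theorem comp_arms (n : ℕ) : ∀ (a b k : ℕ), a ≠ b → a < k → b < k → ∀ w : Word,
    ∃ a' b' k' : ℕ, a' ≠ b' ∧ a' < k' ∧ b' < k' ∧
      componentsAux (forget (arms n) ++ w) [a, b, b, a] k = componentsAux w [a', b', b', a'] k' := by
  induction n with
  | zero => exact fun a b k h1 h2 h3 w => ⟨a, b, k, h1, h2, h3, rfl⟩
  | succ n ih =>
    intro a b k h1 h2 h3 w
    rw [arms_succ']
    have e : forget (arm2 ++ arms n) ++ w = forget arm2 ++ (forget (arms n) ++ w) := by
      simp [forget]
    rw [e, comp_arm2 a b k h1 h2 h3]
    exact ih k b (k + 2) (by omega) (by omega) (by omega) w

theorem components_eq (n : ℕ) : components (forget (starKnot n)) = 1 := by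
  have e : forget (starKnot n) = Piece.birth 0 :: Piece.birth 1 :: (forget (arms n) ++
      [Piece.birth 1, Piece.pos 0, Piece.pos 2, Piece.death 1, Piece.pos 0, Piece.pos 0,
        Piece.death 1, Piece.death 0]) := by
    simp [starKnot, forget, arm1, OPiece.forget]
  unfold components
  rw [e]
  have e0 : ∀ w : Word, componentsAux (Piece.birth 0 :: Piece.birth 1 :: w) [] 0 =
      componentsAux w [0, 1, 1, 0] 2 := fun w => by simp [componentsAux]
  rw [e0]
  obtain ⟨a, b, k, h1, h2, h3, h⟩ := comp_arms n 0 1 2 (by omega) (by omega) (by omega)
    [Piece.birth 1, Piece.pos 0, Piece.pos 2, Piece.death 1, Piece.pos 0, Piece.pos 0,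
        Piece.death 1, Piece.death 0]
  rw [h]
  have e4 : k ≠ a := by omega
  have e5 : k ≠ b := by omega
  have e6 : b ≠ a := by omega
  simp [componentsAux, e4, e5, h1, e6]

theorem closed_of_oclosed {w : OWord} (h : OClosed w) : Closed (forget w) := by
  have key : ∀ (w : OWord) (n : ℕ) (d : ℕ → Bool) (s : ℕ × (ℕ → Bool)),
      Pool.Agent.Helper454.Wh.below w n d = some s →
      Pool.Agent.Helper454.Kauf.width (forget w) n = some s.1 := by
    intro w
    induction w with
    | nil =>
      intro n d s h
      simp only [Pool.Agent.Helper454.Wh.below, Option.some.injEq] at h
      subst h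
      rfl
    | cons p w ih =>
      intro n d s h
      simp only [Pool.Agent.Helper454.Wh.below] at h
      cases hp : p.below n d with
      | none => rw [hp] at h; simp at h
      | some t =>
        rw [hp, Option.bind_some] at h
        have h1 := ih _ _ _ h
        have h2 : (OPiece.forget p).width n = some t.1 := by
          cases p <;> simp only [OPiece.below] at hp <;> split_ifs at hp with hc <;>
            simp only [Option.some.injEq] at hp <;> subst hp <;>
            simp [OPiece.forget, Piece.width] <;> omega
        show ((OPiece.forget p).width n).bind (Pool.Agent.Helper454.Kauf.width (forget w)) = _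
        rw [h2, Option.bind_some, h1]
  unfold OClosed at h
  cases hb : Pool.Agent.Helper454.Wh.below w 0 noD with
  | none => rw [hb] at h; simp at h
  | some s =>
    rw [hb] at h
    simp only [Option.map_some, Option.some.injEq] at h
    have := key w 0 noD s hb
    rw [h] at this
    exact this

theorem isKnot (n : ℕ) : IsKnot (forget (starKnot n)) :=
  ⟨closed_of_oclosed (closed n), components_eq n⟩

end T2h54.Alt
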