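import Pool.Agent.Q174.TB.Conway

/-!
# Arms plumbed to a band

A band is a pair of strands with opposite directions.  In the skein algebra of the Conway polynomial
the operators of the arms are linear combinations of the identity and of the operator `E`
(a minimum followed by a maximum).
-/

set_option autoImplicit false
set_option linter.unusedSectionVars false

namespace T2h54.Alt

open Pool.Agent.Helper454.Wh
open Pool.Agent.Helper454.Wh.OPiece
open Q174.TBD

noncomputable section

/-- an arm of length one: an annulus with two crossings plumbed to the band `0, 1` -/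
def arm1 : OWord := [birth 1 true, pos 0, pos 2, death 1]

/-- an arm of length two: an annulus plumbed to the band `0, 1` and an annulus plumbed to it, each
with two crossings -/
def arm2 : OWord :=
  [birth 1 true, birth 3 false, pos 0, pos 2, pos 4, pos 4, death 1, death 1]

section
variable {R : Type} [CommRing R] {M : Type} [AddCommGroup M] [Module R M]

/-- a minimum followed by a maximum -/
def E (f : OWord → M) : OWord → M := st (st f (death 0)) (birth 0 true)

variable {m : R} {Λ : OWord → M} (hΛ : HomflyRules (1 : R) 1 m Λ)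
variable {n : ℕ} {d : ℕ → Bool} {f : OWord → M} (hf : f ∈ S R Λ n d) (hn : 2 ≤ n)
  (h0 : d 0 = true) (h1 : d 1 = false)

theorem E_add (f g : OWord → M) : E (f + g) = E f + E g := rfl
theorem E_smul (c : R) (f : OWord → M) : E (c • f) = c • E f := rfl
theorem E_sub (f g : OWord → M) : E (f - g) = E f - E g := rfl

include hf hn h0 h1

omit hf hn in
theorem dir_E : insD 0 true (delD 0 d) = d := by
  funext k
  rcases k with _ | _ | k
  · simp [insD, h0]
  · simp [insD, h1]
  · simp [insD, delD]

theorem E_mem : E f ∈ S R Λ n d := by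
  obtain ⟨n, rfl⟩ : ∃ k, n = k + 2 := ⟨n - 2, by omega⟩
  have h2 : st f (death 0) ∈ S R Λ n (delD 0 d) :=
    death_mem hf (by omega) (by rw [h0, h1]; rfl)
  have h3 := birth_mem (i := 0) h2 true (by omega)
  rw [dir_E h0 h1] at h3
  exact h3

include hΛ

theorem twist_pos : ap f [pos 0, pos 0] = f - m • E f := by
  have h := twist_val hΛ hf (i := 0) hn (by rw [h0, h1]; rfl) (-1)
  rw [h0] at h
  have e : twist 0 (-1) = [pos 0, pos 0] := rfl
  rw [e] at h
  rw [h]
  simp only [Int.cast_neg, Int.cast_one, neg_smul, one_smul]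
  rw [sub_eq_add_neg]
  rfl

theorem arm1_eq : ap f arm1 = E f + m • f := by
  have hT := T_of_mem hf
  have m1 : st f (birth 1 true) ∈ S R Λ (n + 2) (insD 1 true d) := birth_mem hf true (by omega)
  have sk := skein_par hΛ m1 (i := 0) (by omega) (by simp [insD, h0])
  rw [one_smul, one_smul, sub_eq_iff_eq_add] at sk
  have e1 : ap f arm1 = st (st (st (st f (birth 1 true)) (pos 0)) (pos 2)) (death 1) := rfl
  rw [e1, sk, st_add, st_add, st_smul, st_smul, add_comm]
  congr 1
  · -- the crossing changed
    rw [← sb1 hΛ hT (i := 0) true (by omega)]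
    have hT1 : T R Λ (n + 2) (st f (birth 0 true)) := T_birth hT true (by omega)
    have hT2 : T R Λ (n + 2) (st (st f (birth 0 true)) (pos 1)) := T_pos hT1 (by omega)
    rw [sd1 hΛ hT2 (i := 1) (by omega), pn hΛ hT1 (i := 1) (by omega)]
    exact bd hΛ hT (i := 0) (j := 0) true le_rfl hn
  · -- the crossing smoothed
    rw [sb1 hΛ hT (i := 1) true (by omega)]
    have hT1 : T R Λ (n + 2) (st f (birth 2 true)) := T_birth hT true (by omega)
    rw [curlDN hΛ hT1 (i := 1) (by omega),
      zig2 hΛ hf (i := 1) (by omega) (by rw [h1]; rfl)]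

theorem arm1_mem : ap f arm1 ∈ S R Λ n d := by
  rw [arm1_eq hΛ hf hn h0 h1]
  exact Submodule.add_mem _ (E_mem hf hn h0 h1) (Submodule.smul_mem _ _ hf)

theorem arm2_eq : ap f arm2 = (1 - m ^ 2) • f - m • E f := by
  have hT := T_of_mem hf
  -- after the first annulus
  obtain ⟨a, ha⟩ : ∃ a, a = st (st f (birth 1 true)) (pos 0) := ⟨_, rfl⟩
  have ma : a ∈ S R Λ (n + 2) (swpD 0 (insD 1 true d)) := by
    rw [ha]
    exact pos_mem (birth_mem hf true (by omega)) (by omega)
  have hTa := T_of_mem ma
  obtain ⟨g, hg⟩ : ∃ g, g = st (st a (birth 3 false)) (pos 2) := ⟨_, rfl⟩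
  have mg : g ∈ S R Λ (n + 2 + 2) (swpD 2 (insD 3 false (swpD 0 (insD 1 true d)))) := by
    rw [hg]
    exact pos_mem (birth_mem ma false (by omega)) (by omega)
  have e1 : ap f arm2 = st (st (ap g [pos 4, pos 4]) (death 1)) (death 1) := by
    have hx := xb hΛ (T_birth hT true (i := 1) (by omega)) true false (k := 0) (i := 3)
      (by omega) (by omega)
    rw [cr_true] at hx
    rw [hg, ha, hx]
    rfl
  have d4 : swpD 2 (insD 3 false (swpD 0 (insD 1 true d))) 4 = true := by
    simp [swpD, insD]
  have d5 : swpD 2 (insD 3 false (swpD 0 (insD 1 true d))) 5 = false := by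
    simp [swpD, insD, h1]
  have tw := twist_val hΛ mg (i := 4) (by omega) (by rw [d4, d5]; rfl) (-1)
  rw [d4] at tw
  have e2 : twist 4 (-1) = [pos 4, pos 4] := rfl
  rw [e2] at tw
  rw [e1, tw]
  simp only [Int.cast_neg, Int.cast_one, neg_smul, one_smul]
  rw [st_add, st_add, st_neg, st_neg, st_smul, st_smul]
  -- the two values
  have v0 : st (st g (death 1)) (death 1) = f := by
    have hTb : T R Λ (n + 2 + 2) (st a (birth 2 false)) := T_birth hTa false (by omega)
    rw [hg, ← sb2 hΛ hTa (i := 2) false (by omega)]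
    have := dx hΛ hTb false (j := 1) (k := 1) le_rfl (by omega)
    rw [cr_false, cr_false] at this
    rw [← this, zig2 hΛ ma (i := 1) (by omega) (by simp [swpD, insD, h0]),
      curlDN hΛ hTa (i := 1) (by omega), ha,
      ← sb2 hΛ hT (i := 0) true (by omega),
      curlDN hΛ (T_birth hT true (by omega)) (i := 1) (by omega)]
    exact zig1 hΛ hf (i := 0) (by omega) h0.symm
  have v1 : st (st (st (st g (death 4)) (birth 4 true)) (death 1)) (death 1) = E f + m • f := by
    have hTb : T R Λ (n + 2 + 2) (st a (birth 3 false)) := T_birth hTa false (by omega)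
    have x1 := xd hΛ hTb true (k := 2) (j := 4) (by omega) (by omega)
    rw [cr_true] at x1
    have z1 := zig1 hΛ ma (i := 3) (by omega) (b := false) (by simp [swpD, insD, h1])
    have x2 : st g (death 4) = st a (pos 2) := by
      rw [hg, x1]
      exact congrArg (fun h => st h (pos 2)) z1
    have hTc : T R Λ (n + 2) (st a (pos 2)) := T_pos hTa (by omega)
    rw [x2, ← db hΛ hTc true (j := 1) (i := 2) (by omega) (by omega)]
    have x3 : st (st a (pos 2)) (death 1) = ap f arm1 := by rw [ha]; rfl
    rw [x3, zig2 hΛ (arm1_mem hΛ hf hn h0 h1) (i := 1) (by omega) (by rw [h1]; rfl),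
      arm1_eq hΛ hf hn h0 h1]
  rw [v0, v1, smul_add, smul_smul, sub_smul, one_smul, pow_two]
  abel

theorem arm2_mem : ap f arm2 ∈ S R Λ n d := by
  rw [arm2_eq hΛ hf hn h0 h1]
  exact Submodule.sub_mem _ (Submodule.smul_mem _ _ hf)
    (Submodule.smul_mem _ _ (E_mem hf hn h0 h1))

end

end

end T2h54.Alt
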